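import Mathlib
import Pool.Agent.Run7.h993.OSI.LowerMain

/-!
# Q1 is false for every constant failure probability

A quantitative lower bound on the error of the randomized SVD with an oblivious subspace
injection of dimension one, and the resulting negative answer to Q1.
-/

namespace Pool.Agent.Results.MP_082b65_an.ConstantFailureFails

open MeasureTheory Matrix Pool.Agent.H321R2.OSI

/-- The bound of Q1 with failure probability `δ`, constant `C` and success probability `p₀`:
for all `0 < ε < 1`, every real `n × d` matrix `A`, every `1 ≤ r ≤ d` and every random `d × k`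
matrix `S` that is an oblivious subspace injection with dimension `r`, injectivity `1 - ε` and
failure probability `δ`, there is an event of probability at least `p₀` on which
`‖A - Ã‖_F ≤ (1 + C ε) ‖A - A_r‖_F`. -/
def Q1Bound (δ C p₀ : ℝ) : Prop :=
  ∀ ε : ℝ, 0 < ε → ε < 1 → ∀ (n d k r : ℕ), 1 ≤ r → r ≤ d →
    ∀ (A : Matrix (Fin n) (Fin d) ℝ) (W : Type) (_ : MeasurableSpace W) (P : Measure W)
      (_ : IsProbabilityMeasure P) (S : W → Matrix (Fin d) (Fin k) ℝ),
      IsOSI P S r (1 - ε) δ →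
        ∃ D : Set W, MeasurableSet D ∧ p₀ ≤ P.real D ∧
          ∀ w ∈ D, frob (A - rsvd A (S w)) ≤ (1 + C * ε) * bestErr A r

lemma isOSI_mono {n k r : ℕ} {W : Type} [MeasurableSpace W] {P : Measure W}
    {S : W → Matrix (Fin n) (Fin k) ℝ} {α δ δ' : ℝ} (h : δ ≤ δ') (hS : IsOSI P S r α δ) :
    IsOSI P S r α δ' where
  measurable := hS.measurable
  integrable := hS.integrable
  isotropy := hS.isotropy
  injectivity V hV := (by linarith : 1 - δ' ≤ 1 - δ).trans (hS.injectivity V hV)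

theorem not_q1Bound (δ : ℝ) (hδ : 0 < δ) (C p₀ : ℝ) (hp : 0 < p₀) : ¬ Q1Bound δ C p₀ := by
  intro hQ
  obtain ⟨δ', hδ'⟩ : ∃ δ' : ℝ, δ' = min δ (1 / 4) := ⟨_, rfl⟩
  have hδ0 : 0 < δ' := by rw [hδ']; exact lt_min hδ (by norm_num)
  have hδ4 : δ' ≤ 1 / 4 := by rw [hδ']; exact min_le_right _ _
  have hδδ : δ' ≤ δ := by rw [hδ']; exact min_le_left _ _
  have hL : 0 < Real.log (1 / δ') := by
    apply Real.log_pos
    rw [lt_div_iff₀ hδ0]
    linarith
  obtain ⟨m, hm⟩ : ∃ m : ℝ, m = δ' ^ 2 / (5000 * Real.log (1 / δ')) := ⟨_, rfl⟩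
  have hm0 : 0 < m := by rw [hm]; positivity
  obtain ⟨ε, hε⟩ : ∃ ε : ℝ, ε = min (1 / 2) (m / (|C| + 1)) := ⟨_, rfl⟩
  have hC1 : 0 < |C| + 1 := by positivity
  have hε0 : 0 < ε := by rw [hε]; exact lt_min (by norm_num) (by positivity)
  have hε2 : ε ≤ 1 / 2 := by rw [hε]; exact min_le_left _ _
  have hεm : C * ε ≤ m := by
    have h1 : ε ≤ m / (|C| + 1) := by rw [hε]; exact min_le_right _ _
    rw [le_div_iff₀ hC1] at h1
    have h2 : C * ε ≤ |C| * ε := mul_le_mul_of_nonneg_right (le_abs_self C) hε0.le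
    nlinarith
  obtain ⟨n, k, A, W, mW, P, hP, S, hn, hS, herr⟩ :=
    Run7.h993.OSI.lower_main hε0.le hε2 hδ0 hδ4
  obtain ⟨D, hD1, hD2, hD3⟩ := hQ ε hε0 (by linarith) n n k 1 le_rfl hn A W mW P hP S
    (isOSI_mono hδδ hS)
  have hDne : D.Nonempty := by
    rw [Set.nonempty_iff_ne_empty]
    rintro rfl
    simp at hD2
    linarith
  obtain ⟨w, hw⟩ := hDne
  have h1 := hD3 w hw
  have h2 := herr w
  have h3 : C * ε ≤ (ε + δ') ^ 2 / (5000 * Real.log (1 / δ')) := by
    refine hεm.trans ?_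
    rw [hm]
    apply div_le_div_of_nonneg_right _ (by positivity)
    nlinarith
  have h4 : (1 + C * ε) * bestErr A 1 ≤
      (1 + (ε + δ') ^ 2 / (5000 * Real.log (1 / δ'))) * bestErr A 1 :=
    mul_le_mul_of_nonneg_right (by linarith) (Run7.h993.OSI.bestErr_nonneg' A 1)
  linarith

/-- **Negative answer to Q1, with a quantitative lower bound.** For all `0 ≤ ε ≤ 1/2` and
`0 < δ ≤ 1/4` there are a matrix `A` and an oblivious subspace injection `S` with dimension `1`,
injectivity `1 - ε` and failure probability `δ` such that for every outcome the error of the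
randomized SVD exceeds `1 + (ε + δ)² / (5000 log (1/δ))` times the optimal rank-one error.
Consequently the bound of Q1 is false for every fixed failure probability `δ > 0`, every
constant `C` and every success probability `p₀ > 0`. -/
theorem result :
    (∀ ε δ : ℝ, 0 ≤ ε → ε ≤ 1 / 2 → 0 < δ → δ ≤ 1 / 4 →
      ∃ (n k : ℕ) (A : Matrix (Fin n) (Fin n) ℝ) (W : Type) (_ : MeasurableSpace W)
        (P : Measure W) (_ : IsProbabilityMeasure P) (S : W → Matrix (Fin n) (Fin k) ℝ),
        1 ≤ n ∧ IsOSI P S 1 (1 - ε) δ ∧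
        ∀ w, (1 + (ε + δ) ^ 2 / (5000 * Real.log (1 / δ))) * bestErr A 1 <
          frob (A - rsvd A (S w))) ∧
    (∀ δ : ℝ, 0 < δ → ∀ C p₀ : ℝ, 0 < p₀ → ¬ Q1Bound δ C p₀) :=
  ⟨fun _ _ h1 h2 h3 h4 => Run7.h993.OSI.lower_main h1 h2 h3 h4,
    fun δ hδ C p₀ hp => not_q1Bound δ hδ C p₀ hp⟩

end Pool.Agent.Results.MP_082b65_an.ConstantFailureFails
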