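import Mathlib
import Pool.Agent.Run7.h993.OSI.UpperMain
import Pool.Agent.Run7.h993.OSI.LowerMain

/-!
# Q2 with the sharp exponent

The randomized SVD with an oblivious subspace injection of any dimension `r`, injectivity
`1 - ε` and failure probability `δ` has relative error `1 + O((ε + δ)²)`. Hence relative error
`1 + O(ε)` is reached with failure probability `δ ≤ ε ^ a` for `a ≥ 1/2`, and already for
`r = 1` it is not reached for `a < 1/2`.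
-/

namespace Pool.Agent.Results.MP_082b65_an.SharpExponent

open MeasureTheory Matrix Pool.Agent.H321R2.OSI

/-- The bound with relative excess `η` in dimension `r`, for injectivity `1 - ε`, failure
probability `δ` and success probability `p₀`: for every real `n × d` matrix `A` with `r ≤ d` and
every random `d × k` matrix `S` that is an oblivious subspace injection with dimension `r`,
injectivity `1 - ε` and failure probability `δ`, there is an event of probability at least `p₀`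
on which `‖A - Ã‖_F ≤ (1 + η) ‖A - A_r‖_F`. -/
def RelErr (r : ℕ) (ε δ η p₀ : ℝ) : Prop :=
  ∀ (n d k : ℕ), r ≤ d → ∀ (A : Matrix (Fin n) (Fin d) ℝ)
    (W : Type) (_ : MeasurableSpace W) (P : Measure W) (_ : IsProbabilityMeasure P)
    (S : W → Matrix (Fin d) (Fin k) ℝ), IsOSI P S r (1 - ε) δ →
      ∃ D : Set W, MeasurableSet D ∧ p₀ ≤ P.real D ∧
        ∀ w ∈ D, frob (A - rsvd A (S w)) ≤ (1 + η) * bestErr A r

lemma isOSI_mono {n k r : ℕ} {W : Type} [MeasurableSpace W] {P : Measure W}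
    {S : W → Matrix (Fin n) (Fin k) ℝ} {α δ δ' : ℝ} (h : δ ≤ δ') (hS : IsOSI P S r α δ) :
    IsOSI P S r α δ' where
  measurable := hS.measurable
  integrable := hS.integrable
  isotropy := hS.isotropy
  injectivity V hV := (by linarith : 1 - δ' ≤ 1 - δ).trans (hS.injectivity V hV)

lemma RelErr.mono {r : ℕ} {ε δ δ' η η' p₀ : ℝ} (hδ : δ' ≤ δ) (hη : η ≤ η')
    (h : RelErr r ε δ η p₀) : RelErr r ε δ' η' p₀ := by
  intro n d k hrd A W mW P hP S hS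
  obtain ⟨D, hD1, hD2, hD3⟩ := h n d k hrd A W mW P hP S (isOSI_mono hδ hS)
  refine ⟨D, hD1, hD2, fun w hw => (hD3 w hw).trans ?_⟩
  exact mul_le_mul_of_nonneg_right (by linarith) (Run7.h993.OSI.bestErr_nonneg' A r)

/-- the quadratic upper bound -/
theorem upper (ε₀ : ℝ) (hε₀ : ε₀ < 1) : ∃ C : ℝ, ∀ ε δ : ℝ, 0 < ε → ε ≤ ε₀ → 0 ≤ δ →
    δ ≤ 1 / 4 → ∀ r : ℕ, 1 ≤ r → RelErr r ε δ (C * (ε + δ) ^ 2) (1 / 2) := by
  obtain ⟨α, hα⟩ : ∃ α : ℝ, α = 1 - ε₀ := ⟨_, rfl⟩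
  have hα0 : 0 < α := by linarith
  refine ⟨1000000000000000000000 + 8 * α⁻¹, ?_⟩
  intro ε δ hε hεε₀ hδ0 hδ r hr n d k hrd A W mW P hP S hS
  have hb0 := Run7.h993.OSI.bestErr_nonneg' A r
  have hinv : 0 < α⁻¹ := inv_pos.2 hα0
  have hsq : 0 ≤ (ε + δ) ^ 2 := sq_nonneg _
  rcases le_or_gt ε (1 / 2) with h | h
  · obtain ⟨D, hD1, hD2, hD3⟩ := Run7.h993.OSI.upper_main hS hε.le h hδ (by linarith) hr hrd A
    refine ⟨D, hD1, hD2, fun w hw => (hD3 w hw).trans ?_⟩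
    apply mul_le_mul_of_nonneg_right _ hb0
    have : 0 ≤ 8 * α⁻¹ * (ε + δ) ^ 2 := by positivity
    linarith
  · obtain ⟨U, hU, hAU⟩ := exists_minimizer A hrd
    obtain ⟨D, hD1, hD2, hD3⟩ := assemble hS (by linarith) hδ U hU α⁻¹ hinv
      (fun e _ => row_bound_coarse hS hα0 (by linarith) U hU e) A (bestErr A r) hb0 hAU
    refine ⟨D, hD1, hD2, fun w hw => (hD3 w hw).trans ?_⟩
    apply mul_le_mul_of_nonneg_right _ hb0
    have h1 : 1 / 4 ≤ (ε + δ) ^ 2 := by nlinarith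
    have h2 : α⁻¹ * (1 / 4) ≤ α⁻¹ * (ε + δ) ^ 2 := mul_le_mul_of_nonneg_left h1 hinv.le
    nlinarith

/-- failure probability at most the square root of `ε` suffices -/
theorem upper_sqrt (ε₀ : ℝ) (hε₀ : ε₀ < 1) : ∃ C : ℝ, ∀ ε δ : ℝ, 0 < ε → ε ≤ ε₀ →
    δ ≤ Real.sqrt ε → δ ≤ 1 / 4 → ∀ r : ℕ, 1 ≤ r → RelErr r ε δ (C * ε) (1 / 2) := by
  obtain ⟨C, hC⟩ := upper ε₀ hε₀
  refine ⟨4 * |C|, ?_⟩
  intro ε δ hε hεε₀ hδs hδ r hr
  obtain ⟨δ', hδ'⟩ : ∃ δ' : ℝ, δ' = max δ 0 := ⟨_, rfl⟩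
  have h0 : 0 ≤ δ' := by rw [hδ']; exact le_max_right _ _
  have h1 : δ ≤ δ' := by rw [hδ']; exact le_max_left _ _
  have h2 : δ' ≤ Real.sqrt ε := by rw [hδ']; exact max_le hδs (Real.sqrt_nonneg _)
  have h3 : δ' ≤ 1 / 4 := by rw [hδ']; exact max_le hδ (by norm_num)
  refine RelErr.mono h1 ?_ (hC ε δ' hε hεε₀ h0 h3 r hr)
  have hs := Real.sq_sqrt hε.le
  have hs0 := Real.sqrt_nonneg ε
  have hε1 : ε ≤ 1 := by linarith
  have hs1 : Real.sqrt ε ≤ 1 := (Real.sqrt_le_sqrt hε1).trans_eq Real.sqrt_one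
  have h4 : ε ≤ Real.sqrt ε := by
    calc ε = Real.sqrt ε ^ 2 := hs.symm
      _ ≤ Real.sqrt ε := by nlinarith
  have h5 : (ε + δ') ^ 2 ≤ 4 * ε := by
    calc (ε + δ') ^ 2 ≤ (Real.sqrt ε + Real.sqrt ε) ^ 2 :=
          pow_le_pow_left₀ (by linarith) (by linarith) 2
      _ = 4 * Real.sqrt ε ^ 2 := by ring
      _ = 4 * ε := by rw [hs]
  calc C * (ε + δ') ^ 2 ≤ |C| * (ε + δ') ^ 2 :=
        mul_le_mul_of_nonneg_right (le_abs_self C) (sq_nonneg _)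
    _ ≤ |C| * (4 * ε) := mul_le_mul_of_nonneg_left h5 (abs_nonneg C)
    _ = 4 * |C| * ε := by ring

/-- exponents below one half fail -/
theorem lower_exponent (a : ℝ) (ha : a < 1 / 2) (C p₀ : ℝ) (hp : 0 < p₀) :
    ∃ ε₁ : ℝ, 0 < ε₁ ∧ ∀ ε : ℝ, 0 < ε → ε ≤ ε₁ → ¬ RelErr 1 ε (ε ^ a) (C * ε) p₀ := by
  obtain ⟨b, hb⟩ : ∃ b : ℝ, b = max a (1 / 4) := ⟨_, rfl⟩
  have hb4 : 1 / 4 ≤ b := by rw [hb]; exact le_max_right _ _
  have hab : a ≤ b := by rw [hb]; exact le_max_left _ _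
  have hb2 : b < 1 / 2 := by rw [hb]; exact max_lt ha (by norm_num)
  obtain ⟨e, he⟩ : ∃ e : ℝ, e = (1 - 2 * b) / 2 := ⟨_, rfl⟩
  have he0 : 0 < e := by rw [he]; linarith
  obtain ⟨M, hM⟩ : ∃ M : ℝ, M = 5000 * (|C| + 1) / e := ⟨_, rfl⟩
  have hM0 : 0 < M := by rw [hM]; positivity
  refine ⟨min (1 / 256) (M⁻¹ ^ (1 / e)), lt_min (by norm_num) (by positivity), ?_⟩
  intro ε hε hε1 hQ
  have hε256 : ε ≤ 1 / 256 := hε1.trans (min_le_left _ _)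
  have hεM : ε ^ e ≤ M⁻¹ := by
    have h1 : ε ≤ M⁻¹ ^ (1 / e) := hε1.trans (min_le_right _ _)
    have h2 : ε ^ e ≤ (M⁻¹ ^ (1 / e)) ^ e := Real.rpow_le_rpow hε.le h1 he0.le
    rwa [← Real.rpow_mul (by positivity), one_div_mul_cancel he0.ne', Real.rpow_one] at h2
  -- the failure probability
  obtain ⟨δ, hδ⟩ : ∃ δ : ℝ, δ = ε ^ b := ⟨_, rfl⟩
  have hδ0 : 0 < δ := by rw [hδ]; positivity
  have hδ4 : δ ≤ 1 / 4 := by
    rw [hδ]
    calc ε ^ b ≤ ε ^ (1 / 4 : ℝ) :=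
          Real.rpow_le_rpow_of_exponent_ge hε (by linarith) hb4
      _ ≤ (1 / 256 : ℝ) ^ (1 / 4 : ℝ) := Real.rpow_le_rpow hε.le hε256 (by norm_num)
      _ = 1 / 4 := by
          rw [show (1 / 256 : ℝ) = (1 / 4) ^ (4 : ℝ) by norm_num,
            ← Real.rpow_mul (by norm_num)]
          norm_num
  have hδa : δ ≤ ε ^ a := by
    rw [hδ]
    exact Real.rpow_le_rpow_of_exponent_ge hε (by linarith) hab
  obtain ⟨L, hL⟩ : ∃ L : ℝ, L = Real.log (1 / δ) := ⟨_, rfl⟩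
  have hLpos : 0 < L := by
    rw [hL]
    apply Real.log_pos
    rw [lt_div_iff₀ hδ0]
    linarith
  have hLle : L ≤ (ε ^ e)⁻¹ / e := by
    have h1 : L = b * Real.log (1 / ε) := by
      rw [hL, hδ, one_div, one_div, Real.log_inv, Real.log_inv, Real.log_rpow hε]
      ring
    have h2 : Real.log (1 / ε) ≤ (1 / ε) ^ e / e :=
      Real.log_le_rpow_div (by positivity) he0
    have h3 : (1 / ε) ^ e = (ε ^ e)⁻¹ := by
      rw [one_div, Real.inv_rpow hε.le]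
    rw [h3] at h2
    have h4 : 0 ≤ (ε ^ e)⁻¹ / e := by positivity
    rw [h1]
    calc b * Real.log (1 / ε) ≤ b * ((ε ^ e)⁻¹ / e) := mul_le_mul_of_nonneg_left h2 (by linarith)
      _ ≤ 1 * ((ε ^ e)⁻¹ / e) := mul_le_mul_of_nonneg_right (by linarith) h4
      _ = _ := one_mul _
  have hδ2 : δ ^ 2 = ε * (ε ^ e)⁻¹ * (ε ^ e)⁻¹ := by
    have h1 : δ ^ 2 = ε ^ (2 * b) := by
      rw [hδ, ← Real.rpow_natCast, ← Real.rpow_mul hε.le]
      congr 1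
      push_cast
      ring
    have h2 : 2 * b = 1 + -e + -e := by rw [he]; ring
    rw [h1, h2, Real.rpow_add hε, Real.rpow_add hε, Real.rpow_one, Real.rpow_neg hε.le]
  have hkey : C * ε ≤ (ε + δ) ^ 2 / (5000 * Real.log (1 / δ)) := by
    rw [← hL, le_div_iff₀ (by positivity)]
    obtain ⟨u, hu⟩ : ∃ u : ℝ, u = ε ^ e := ⟨_, rfl⟩
    have hu0 : 0 < u := by rw [hu]; positivity
    rw [← hu] at hLle hεM hδ2
    have h1 : M ≤ u⁻¹ := by
      rw [le_inv_comm₀ hM0 hu0]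
      exact hεM
    have h2 : C * ε * (5000 * L) ≤ (|C| + 1) * ε * (5000 * (u⁻¹ / e)) := by
      apply mul_le_mul _ _ (by positivity) (by positivity)
      · exact mul_le_mul_of_nonneg_right (by linarith [le_abs_self C]) hε.le
      · exact mul_le_mul_of_nonneg_left hLle (by norm_num)
    have h3 : (|C| + 1) * ε * (5000 * (u⁻¹ / e)) = ε * u⁻¹ * M := by
      rw [hM]; ring
    have h4 : ε * u⁻¹ * M ≤ ε * u⁻¹ * u⁻¹ := mul_le_mul_of_nonneg_left h1 (by positivity)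
    have h5 : δ ^ 2 ≤ (ε + δ) ^ 2 := pow_le_pow_left₀ hδ0.le (by linarith) 2
    linarith
  obtain ⟨n, k, A, W, mW, P, hP, S, hn, hS, herr⟩ :=
    Run7.h993.OSI.lower_main hε.le (by linarith) hδ0 hδ4
  obtain ⟨D, hD1, hD2, hD3⟩ := hQ n n k hn A W mW P hP S (isOSI_mono hδa hS)
  have hDne : D.Nonempty := by
    rw [Set.nonempty_iff_ne_empty]
    rintro rfl
    simp at hD2
    linarith
  obtain ⟨w, hw⟩ := hDne
  have h1 := hD3 w hw
  have h2 := herr w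
  have h4 : (1 + C * ε) * bestErr A 1 ≤
      (1 + (ε + δ) ^ 2 / (5000 * Real.log (1 / δ))) * bestErr A 1 :=
    mul_le_mul_of_nonneg_right (by linarith) (Run7.h993.OSI.bestErr_nonneg' A 1)
  linarith

/-- **Q2 with the sharp exponent.** On every range `ε ≤ ε₀ < 1`:
* for every `r ≥ 1` and `δ ≤ 1/4` the randomized SVD has relative excess at most `C (ε + δ)²`
  with probability at least `1/2`;
* in particular `δ ≤ ε ^ (1/2)`, `δ ≤ 1/4` suffices for the bound `1 + C ε` of Q2;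
* for every exponent `a < 1/2` the bound of Q2 with `δ = ε ^ a` fails already for `r = 1`, for
  every constant `C`, every success probability `p₀ > 0` and all sufficiently small `ε`. -/
theorem result :
    (∀ ε₀ : ℝ, ε₀ < 1 → ∃ C : ℝ, ∀ ε δ : ℝ, 0 < ε → ε ≤ ε₀ → 0 ≤ δ → δ ≤ 1 / 4 →
      ∀ r : ℕ, 1 ≤ r → RelErr r ε δ (C * (ε + δ) ^ 2) (1 / 2)) ∧
    (∀ ε₀ : ℝ, ε₀ < 1 → ∃ C : ℝ, ∀ ε δ : ℝ, 0 < ε → ε ≤ ε₀ → δ ≤ Real.sqrt ε → δ ≤ 1 / 4 →
      ∀ r : ℕ, 1 ≤ r → RelErr r ε δ (C * ε) (1 / 2)) ∧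
    (∀ a : ℝ, a < 1 / 2 → ∀ C p₀ : ℝ, 0 < p₀ → ∃ ε₁ : ℝ, 0 < ε₁ ∧
      ∀ ε : ℝ, 0 < ε → ε ≤ ε₁ → ¬ RelErr 1 ε (ε ^ a) (C * ε) p₀) :=
  ⟨upper, upper_sqrt, lower_exponent⟩

end Pool.Agent.Results.MP_082b65_an.SharpExponent
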